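import Pool.Agent.Helper54.SRD.Goals

/-! The norm of the increment of a Lipschitz curve is at most the integral of its speed. -/

open Set Filter MeasureTheory
open scoped Manifold ContDiff Topology

noncomputable section

namespace Pool.Agent.Helper41.SRD

open Pool.Agent.Helper54.SRD

theorem nmi (E : Type*) [NormedAddCommGroup E] [NormedSpace ℝ E] [FiniteDimensional ℝ E]
    (hNM : S_NM E) : S_NMI E := by
  intro B hB c a b K hab hK
  obtain ⟨-, -, hcs, -, C, hC0, hC⟩ := hNM B hB
  have hcont : Continuous (nm B) := by
    unfold nm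
    fun_prop
  have hbound : ∀ t ∈ Ioo a b, ‖deriv c t‖ ≤ K := by
    intro t ht
    exact norm_deriv_le_of_lipschitzOn (Icc_mem_nhds ht.1 ht.2) hK
  have hsm : StronglyMeasurable (deriv c) := stronglyMeasurable_deriv c
  have hsm2 : StronglyMeasurable (fun t => nm B (deriv c t)) :=
    hcont.comp_stronglyMeasurable hsm
  have hnn : ∀ u : E, 0 ≤ nm B u := fun u => Real.sqrt_nonneg _
  have hint : IntervalIntegrable (fun t => nm B (deriv c t)) volume a b := by
    rw [intervalIntegrable_iff_integrableOn_Ioo_of_le hab]
    refine Measure.integrableOn_of_bounded (M := C * K) (by simp) hsm2.aestronglyMeasurable ?_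
    rw [ae_restrict_iff' measurableSet_Ioo]
    refine Eventually.of_forall fun t ht => ?_
    rw [Real.norm_of_nonneg (hnn _)]
    exact (hC _).trans (mul_le_mul_of_nonneg_left (hbound t ht) hC0.le)
  refine ⟨hint, ?_⟩
  set w : E := c b - c a with hw
  rcases eq_or_lt_of_le (hnn w) with h0 | h0
  · rw [← h0]
    exact intervalIntegral.integral_nonneg hab fun t _ => hnn _
  -- the real function
  have hf : LipschitzOnWith (‖B w‖₊ * K) (fun t => B w (c t)) (Icc a b) :=
    (B w).lipschitz.comp_lipschitzOnWith hK
  have hac : AbsolutelyContinuousOnInterval (fun t => B w (c t)) a b := by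
    apply LipschitzOnWith.absolutelyContinuousOnInterval
    rwa [uIcc_of_le hab]
  have hftc := hac.integral_deriv_eq_sub
  have hae : ∀ᵐ t ∂volume, t ∈ Ioo a b →
      deriv (fun t => B w (c t)) t ≤ nm B w * nm B (deriv c t) := by
    have h1 := hK.ae_differentiableWithinAt_of_mem_real
    filter_upwards [h1] with t ht htI
    have hd : DifferentiableAt ℝ c t :=
      (ht (Ioo_subset_Icc_self htI)).differentiableAt (Icc_mem_nhds htI.1 htI.2)
    have h2 : HasDerivAt (fun t => B w (c t)) (B w (deriv c t)) t :=
      (B w).hasFDerivAt.comp_hasDerivAt t hd.hasDerivAt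
    rw [h2.deriv]
    exact hcs w (deriv c t)
  have hfi : IntervalIntegrable (deriv fun t => B w (c t)) volume a b := by
    rw [intervalIntegrable_iff_integrableOn_Ioo_of_le hab]
    refine Measure.integrableOn_of_bounded (M := (‖B w‖₊ * K : NNReal)) (by simp)
      (stronglyMeasurable_deriv _).aestronglyMeasurable ?_
    rw [ae_restrict_iff' measurableSet_Ioo]
    refine Eventually.of_forall fun t ht => ?_
    exact norm_deriv_le_of_lipschitzOn (Icc_mem_nhds ht.1 ht.2) hf
  have hle : ∫ t in a..b, deriv (fun t => B w (c t)) t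
      ≤ ∫ t in a..b, nm B w * nm B (deriv c t) := by
    refine intervalIntegral.integral_mono_ae_restrict hab hfi (hint.const_mul _) ?_
    have h3 : ∀ᵐ t ∂volume.restrict (Ioo a b),
        deriv (fun t => B w (c t)) t ≤ nm B w * nm B (deriv c t) := by
      rw [ae_restrict_iff' measurableSet_Ioo]
      exact hae
    rwa [Measure.restrict_congr_set Ioo_ae_eq_Icc] at h3
  rw [hftc, intervalIntegral.integral_const_mul] at hle
  have hww : B w (c b) - B w (c a) = nm B w * nm B w := by
    have h4 : 0 ≤ B w w := by
      by_cases h : w = 0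
      · simp [h]
      · exact (hB.2 w h).le
    unfold nm
    rw [Real.mul_self_sqrt h4, ← map_sub]
  rw [hww] at hle
  exact le_of_mul_le_mul_left hle h0

end Pool.Agent.Helper41.SRD
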